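import Pool.Agent.Y734.I.FINA.Quad

/-!
# Project Y734/I, job FINA: a conic with at most four points on six lines
-/

set_option autoImplicit false

namespace Pool.Agent.Y734.I.FINA

open Pool.Agent.Y734.I MvPolynomial
open scoped LinearAlgebra.Projectivization

/-- points of the complex projective plane -/
abbrev Pr : Type := ℙ ℂ (Fin 3 → ℂ)

/-- the common points of the conic and a line -/
def Zs (h : Fin 3 → ℚ) (Q : Fin 3 → Fin 3 → ℚ) : Set Pr :=
  {p | ev (N := 2) h p.rep = 0 ∧ bl Q p.rep p.rep = 0}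

lemma bl_smul' (Q : Fin 3 → Fin 3 → ℚ) (x y : Fin 3 → ℂ) (c : ℂ) :
    bl Q (c • x) y = c * bl Q x y := by
  simp only [bl, Fin.sum_univ_three, Pi.smul_apply, smul_eq_mul]
  ring

lemma mk_mem {h : Fin 3 → ℚ} {Q : Fin 3 → Fin 3 → ℚ} {x : Fin 3 → ℂ} (hx : x ≠ 0)
    (h1 : ev (N := 2) h x = 0) (h2 : bl Q x x = 0) : Projectivization.mk ℂ x hx ∈ Zs h Q := by
  obtain ⟨a, ha⟩ := Projectivization.exists_smul_eq_mk_rep ℂ x hx
  have ha' : (a : ℂ) • x = (Projectivization.mk ℂ x hx).rep := ha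
  refine ⟨?_, ?_⟩
  · rw [← ha', ev_smul, h1, mul_zero]
  · rw [← ha', bl_smul, bl_smul', h2]
    ring

lemma mk_eq {x : Fin 3 → ℂ} (hx : x ≠ 0) {p : Pr} (h : Projectivization.mk ℂ x hx = p) :
    ∃ a : ℂ, x = a • p.rep := by
  subst h
  obtain ⟨a, ha⟩ := Projectivization.exists_smul_eq_mk_rep ℂ x hx
  have ha' : (a : ℂ) • x = (Projectivization.mk ℂ x hx).rep := ha
  refine ⟨(a : ℂ)⁻¹, ?_⟩
  rw [← ha', smul_smul, inv_mul_cancel₀ a.ne_zero, one_smul]

lemma eq_of_smul {p p' : Pr} {c : ℂ} (h : p.rep = c • p'.rep) : p = p' := by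
  rw [← p.mk_rep, ← p'.mk_rep, Projectivization.mk_eq_mk_iff']
  exact ⟨c, h.symm⟩

/-- the value at a complex point of the cross product -/
lemma ev_crs (a b c : Fin 3 → ℚ) :
    ev (N := 2) a (fun t => ((crs b c t : ℚ) : ℂ)) = ((dt3 a (crs b c) : ℚ) : ℂ) := by
  rw [ev_c, dt3]
  push_cast
  ring

lemma bl_self_add {Q : Fin 3 → Fin 3 → ℚ} (hQ : ∀ j k, Q j k = Q k j) (x y : Fin 3 → ℂ) (t : ℂ) :
    bl Q (x + t • y) (x + t • y) = bl Q x x + 2 * t * bl Q x y + t ^ 2 * bl Q y y := by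
  rw [bl_add, bl_smul, bl_comm hQ (x + t • y) x, bl_comm hQ (x + t • y) y, bl_add, bl_add, bl_smul,
    bl_smul, bl_comm hQ y x]
  ring

/-- a conic meets a line -/
lemma exists_zero {H : Fin 6 → Fin 3 → ℚ} (hH : GP3 H) {Q : Fin 3 → Fin 3 → ℚ}
    (hQ : ∀ j k, Q j k = Q k j) (i : Fin 6) : (Zs (H i) Q).Nonempty := by
  obtain ⟨j, k, hij, hik, hjk⟩ : ∃ j k : Fin 6, i ≠ j ∧ i ≠ k ∧ j ≠ k := by
    revert i
    decide
  set a : Fin 3 → ℂ := fun t => ((crs (H i) (H j) t : ℚ) : ℂ) with ha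
  set b : Fin 3 → ℂ := fun t => ((crs (H i) (H k) t : ℚ) : ℂ) with hb
  have a1 : ev (N := 2) (H i) a = 0 := by rw [ha, ev_crs, dt3_left]; norm_num
  have b1 : ev (N := 2) (H i) b = 0 := by rw [hb, ev_crs, dt3_left]; norm_num
  have b2 : ev (N := 2) (H k) b = 0 := by rw [hb, ev_crs, dt3_right]; norm_num
  have a2 : ev (N := 2) (H k) a ≠ 0 := by
    rw [ha, ev_crs]
    exact_mod_cast dt3_ne (hH k i j hik.symm hjk.symm hij)
  have b3 : ev (N := 2) (H j) b ≠ 0 := by
    rw [hb, ev_crs]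
    exact_mod_cast dt3_ne (hH j i k hij.symm hjk hik)
  by_cases hbb : bl Q b b = 0
  · have hb0 : b ≠ 0 := by
      intro h0
      apply b3
      rw [h0, ev_c]
      simp
    exact ⟨_, mk_mem hb0 b1 hbb⟩
  · obtain ⟨s, hs⟩ := IsAlgClosed.exists_eq_mul_self (discrim (bl Q b b) (2 * bl Q a b) (bl Q a a))
    obtain ⟨t, ht⟩ := exists_quadratic_eq_zero hbb ⟨s, hs⟩
    have hx : a + t • b ≠ 0 := by
      intro h0
      apply a2
      have : ev (N := 2) (H k) (a + t • b) = 0 := by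
        rw [h0, ev_c]
        simp
      rw [ev_add, ev_smul, b2, mul_zero, add_zero] at this
      exact this
    refine ⟨_, mk_mem hx ?_ ?_⟩
    · rw [ev_add, ev_smul, a1, b1]
      ring
    · rw [bl_self_add hQ]
      linear_combination ht

/-- if the conic has only one point on the line, then it is tangent -/
lemma tangent {h : Fin 3 → ℚ} {Q : Fin 3 → Fin 3 → ℚ} (hQ : ∀ j k, Q j k = Q k j) {p : Pr}
    (hp : p ∈ Zs h Q) (hu : ∀ p' ∈ Zs h Q, p' = p) {y : Fin 3 → ℂ} (hy : ev (N := 2) h y = 0) :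
    bl Q p.rep y = 0 := by
  by_cases hm : ∃ a : ℂ, y = a • p.rep
  · obtain ⟨a, rfl⟩ := hm
    rw [bl_smul, hp.2, mul_zero]
  · have hy0 : y ≠ 0 := by
      rintro rfl
      exact hm ⟨0, by rw [zero_smul]⟩
    have hyy : bl Q y y ≠ 0 := by
      intro h0
      exact hm (mk_eq hy0 (hu _ (mk_mem hy0 hy h0)))
    by_contra hne
    set t : ℂ := -2 * bl Q p.rep y / bl Q y y with ht
    have ht0 : t ≠ 0 := by
      rw [ht]
      exact div_ne_zero (mul_ne_zero (by norm_num) hne) hyy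
    have hz0 : p.rep + t • y ≠ 0 := by
      intro h0
      apply hm
      refine ⟨-t⁻¹, ?_⟩
      have h1 : t • y = -p.rep := (neg_eq_of_add_eq_zero_right h0).symm
      have h2 : y = t⁻¹ • (t • y) := by rw [smul_smul, inv_mul_cancel₀ ht0, one_smul]
      rw [h2, h1, smul_neg, neg_smul]
    have hz1 : ev (N := 2) h (p.rep + t • y) = 0 := by
      rw [ev_add, ev_smul, hp.1, hy]
      ring
    have hz2 : bl Q (p.rep + t • y) (p.rep + t • y) = 0 := by
      rw [bl_self_add hQ, hp.2, ht]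
      field_simp
      ring
    obtain ⟨c, hc⟩ := mk_eq hz0 (hu _ (mk_mem hz0 hz1 hz2))
    apply hm
    refine ⟨t⁻¹ * (c - 1), ?_⟩
    have h1 : t • y = (c - 1) • p.rep := by
      rw [sub_smul, one_smul, ← hc]
      abel
    have h2 : y = t⁻¹ • (t • y) := by rw [smul_smul, inv_mul_cancel₀ ht0, one_smul]
    rw [h2, h1, smul_smul]

/-- at least five tangents: the conic is a double line -/
lemma five_tangents {H : Fin 6 → Fin 3 → ℚ} (hH : GP3 H) {Q : Fin 3 → Fin 3 → ℚ}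
    (hQ : ∀ j k, Q j k = Q k j) (hne : ∃ j k, Q j k ≠ 0) {i j k : Fin 6} (hij : i ≠ j)
    (hik : i ≠ k) (hjk : j ≠ k) {p r : Pr} (hpi : p ∈ Zs (H i) Q)
    (hui : ∀ p' ∈ Zs (H i) Q, p' = p) (hpj : p ∈ Zs (H j) Q) (huj : ∀ p' ∈ Zs (H j) Q, p' = p)
    (hrk : r ∈ Zs (H k) Q) (hur : ∀ p' ∈ Zs (H k) Q, p' = r) :
    ∃ h : Fin 3 → ℚ, h ≠ 0 ∧ ∀ x : Fin 3 → ℂ, bl Q x x = 0 ↔ ev (N := 2) h x = 0 := by
  have hv : ∀ y, bl Q p.rep y = 0 := by
    intro y
    set e : Fin 3 → ℂ := fun t => ((crs (H j) (H k) t : ℚ) : ℂ) with he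
    have e1 : ev (N := 2) (H j) e = 0 := by rw [he, ev_crs, dt3_left]; norm_num
    have e2 : ev (N := 2) (H i) e ≠ 0 := by
      rw [he, ev_crs]
      exact_mod_cast dt3_ne (hH i j k hij hik hjk)
    set c : ℂ := ev (N := 2) (H i) y / ev (N := 2) (H i) e with hc
    have hy : y = (y + (-c) • e) + c • e := by
      rw [neg_smul]
      abel
    have h1 : ev (N := 2) (H i) (y + (-c) • e) = 0 := by
      rw [ev_add, ev_smul, hc]
      field_simp
      ring
    rw [hy, bl_add, bl_smul, tangent hQ hpi hui h1, tangent hQ hpj huj e1]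
    ring
  have hkv : ev (N := 2) (H k) p.rep ≠ 0 := by
    intro h0
    exact p.rep_nonzero (no_common hH hij hik hjk hpi.1 hpj.1 h0)
  have hw : ∀ y, bl Q r.rep y = 0 := by
    intro y
    set c : ℂ := ev (N := 2) (H k) y / ev (N := 2) (H k) p.rep with hc
    have hy : y = (y + (-c) • p.rep) + c • p.rep := by
      rw [neg_smul]
      abel
    have h1 : ev (N := 2) (H k) (y + (-c) • p.rep) = 0 := by
      rw [ev_add, ev_smul, hc]
      field_simp
      ring
    rw [hy, bl_add, bl_smul, tangent hQ hrk hur h1, bl_comm hQ r.rep p.rep, hv]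
    ring
  refine rank_one hQ hne hv hw p.rep_nonzero fun a ha => ?_
  have h1 := hrk.1
  rw [ha, ev_smul] at h1
  have ha0 : a = 0 := (mul_eq_zero.1 h1).resolve_right hkv
  rw [ha0, zero_smul] at ha
  exact r.rep_nonzero ha

/-- Job FINA -/
theorem fina : FinaStmt := by
  classical
  intro H hH G hG hG0 hAt
  obtain ⟨Q, hQ, hGQ⟩ := exists_mat hG
  have hne : ∃ j k, Q j k ≠ 0 := by
    by_contra h
    push Not at h
    apply hG0
    refine MvPolynomial.funext fun x => ?_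
    have h1 := hGQ (fun i => ((x i : ℚ) : ℂ))
    have h2 : aeval (fun i => ((x i : ℚ) : ℂ)) G = ((eval x G : ℚ) : ℂ) := by
      have := MvPolynomial.aeval_algebraMap_apply (A := ℚ) ℂ x G
      have e : (fun i => ((x i : ℚ) : ℂ)) = ⇑(algebraMap ℚ ℂ) ∘ x := by
        funext i
        rw [Function.comp_apply, eq_ratCast]
      rw [e]
      simpa [MvPolynomial.aeval_eq_eval] using this
    rw [h2] at h1
    have h3 : bl Q (fun i => ((x i : ℚ) : ℂ)) (fun i => ((x i : ℚ) : ℂ)) = 0 := by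
      simp [bl, h]
    rw [h3] at h1
    rw [map_zero]
    exact_mod_cast h1
  by_cases hsec : ∀ (i : Fin 6) (p : Fin 3 → ℂ), p ≠ 0 → ev (N := 2) (H i) p = 0 →
      aeval p G = 0 → ∃ j, j ≠ i ∧ ev (N := 2) (H j) p = 0
  · exact Or.inr hsec
  left
  push Not at hsec
  obtain ⟨i₀, p₀, hp₀, hp₁, hp₂, hp₃⟩ := hsec
  simp only [hGQ] at hp₂ ⊢
  -- the common points
  set U : Set Pr := ⋃ i, Zs (H i) Q with hUdef
  have hU : U.encard ≤ 4 := by
    by_contra hcon
    have h5 : (5 : ℕ∞) ≤ U.encard := by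
      rw [not_le] at hcon
      exact Order.add_one_le_of_lt hcon
    obtain ⟨t, htU, ht⟩ := Set.exists_subset_encard_eq h5
    have htf : t.Finite := Set.finite_of_encard_eq_coe (k := 5) ht
    have hcard : htf.toFinset.card = 5 := by
      rw [htf.encard_eq_coe_toFinset_card] at ht
      exact_mod_cast ht
    set f : Fin 5 ≃ htf.toFinset := (Finset.equivFinOfCardEq hcard).symm with hf
    have hfU : ∀ k, ((f k : htf.toFinset) : Pr) ∈ U := fun k => htU (htf.mem_toFinset.1 (f k).2)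
    obtain ⟨k, l, hkl, c, hc⟩ := hAt (fun k => ((f k : htf.toFinset) : Pr).rep)
      (fun k => Projectivization.rep_nonzero _)
      (fun k => by
        obtain ⟨i, hi⟩ := Set.mem_iUnion.1 (hfU k)
        rw [hGQ]
        exact hi.2)
      (fun k => by
        obtain ⟨i, hi⟩ := Set.mem_iUnion.1 (hfU k)
        exact ⟨i, hi.1⟩)
    have h6 := eq_of_smul hc
    exact hkl (f.injective (Subtype.ext h6))
  have hUf : U.Finite := Set.finite_of_encard_le_coe (k := 4) hU
  set P : Finset Pr := hUf.toFinset with hP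
  have hPc : P.card ≤ 4 := by
    rw [hUf.encard_eq_coe_toFinset_card] at hU
    exact_mod_cast hU
  have hmem : ∀ i (p : Pr), p ∈ Zs (H i) Q → p ∈ P := fun i p hp =>
    hUf.mem_toFinset.2 (Set.mem_iUnion.2 ⟨i, hp⟩)
  -- incidences
  have hinc : ∀ p : Pr, (Finset.univ.filter fun i => p ∈ Zs (H i) Q).card ≤ 2 := by
    intro p
    by_contra hcon
    push Not at hcon
    obtain ⟨i, j, k, hi, hj, hk, hij, hik, hjk⟩ := Finset.two_lt_card_iff.1 hcon
    simp only [Finset.mem_filter, Finset.mem_univ, true_and] at hi hj hk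
    exact p.rep_nonzero (no_common hH hij hik hjk hi.1 hj.1 hk.1)
  set x₀ : Pr := Projectivization.mk ℂ p₀ hp₀ with hx₀
  have hx₀1 : x₀ ∈ P := hmem i₀ _ (mk_mem hp₀ hp₁ hp₂)
  have hx₀2 : (Finset.univ.filter fun i => x₀ ∈ Zs (H i) Q).card ≤ 1 := by
    have hsub : (Finset.univ.filter fun i => x₀ ∈ Zs (H i) Q) ⊆ {i₀} := by
      intro i hi
      simp only [Finset.mem_filter, Finset.mem_univ, true_and] at hi
      rw [Finset.mem_singleton]
      by_contra hne'
      obtain ⟨a, ha⟩ := mk_eq hp₀ hx₀.symm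
      apply hp₃ i hne'
      rw [ha, ev_smul, hi.1, mul_zero]
    exact (Finset.card_le_card hsub).trans (Finset.card_singleton i₀).le
  set Z : Fin 6 → Finset Pr := fun i => P.filter fun p => p ∈ Zs (H i) Q with hZ
  have hsum : ∑ i, (Z i).card = ∑ p ∈ P, (Finset.univ.filter fun i => p ∈ Zs (H i) Q).card := by
    simp only [hZ, Finset.card_filter]
    exact Finset.sum_comm
  have hup : ∑ i, (Z i).card ≤ 7 := by
    rw [hsum, ← Finset.add_sum_erase _ _ hx₀1]
    have h1 : ∑ p ∈ P.erase x₀, (Finset.univ.filter fun i => p ∈ Zs (H i) Q).card ≤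
        (P.erase x₀).card * 2 := Finset.sum_le_card_nsmul _ _ 2 fun p _ => hinc p
    have h2 : (P.erase x₀).card = P.card - 1 := Finset.card_erase_of_mem hx₀1
    omega
  have hmemZ : ∀ i (p : Pr), p ∈ Z i ↔ p ∈ Zs (H i) Q := fun i p => by
    simp only [hZ, Finset.mem_filter]
    exact ⟨fun h => h.2, fun h => ⟨hmem i p h, h⟩⟩
  have hZne : ∀ i, ∃ p, p ∈ Z i := fun i => by
    obtain ⟨p, hp⟩ := exists_zero hH hQ i
    exact ⟨p, (hmemZ i p).2 hp⟩
  choose f hf using hZne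
  set T : Finset (Fin 6) := Finset.univ.filter fun i => (Z i).card = 1 with hT
  have hT5 : 5 ≤ T.card := by
    have h1 : ∀ i, 2 ≤ (Z i).card + if (Z i).card = 1 then 1 else 0 := by
      intro i
      have : 0 < (Z i).card := Finset.card_pos.2 ⟨_, hf i⟩
      split_ifs <;> omega
    have h2 : ∑ _i : Fin 6, 2 ≤ ∑ i, ((Z i).card + if (Z i).card = 1 then 1 else 0) :=
      Finset.sum_le_sum fun i _ => h1 i
    rw [Finset.sum_add_distrib] at h2
    have h3 : ∑ i, (if (Z i).card = 1 then 1 else 0) = T.card := by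
      rw [hT, Finset.card_filter]
    rw [h3] at h2
    simp only [Finset.sum_const, Finset.card_univ, Fintype.card_fin, smul_eq_mul] at h2
    omega
  have huniq : ∀ i ∈ T, ∀ p' ∈ Zs (H i) Q, p' = f i := by
    intro i hi p' hp'
    rw [hT, Finset.mem_filter] at hi
    obtain ⟨a, ha⟩ := Finset.card_eq_one.1 hi.2
    have h1 : p' ∈ Z i := (hmemZ i p').2 hp'
    have h2 := hf i
    rw [ha, Finset.mem_singleton] at h1 h2
    rw [h1, h2]
  obtain ⟨i, hi, j, hj, hij, hfij⟩ := Finset.exists_ne_map_eq_of_card_lt_of_maps_to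
    (s := T) (t := P) (f := f) (by omega) (fun i _ => hmem i _ ((hmemZ i _).1 (hf i)))
  obtain ⟨k, hk⟩ : ((T.erase i).erase j).Nonempty := by
    rw [← Finset.card_pos]
    have h1 := Finset.pred_card_le_card_erase (s := T.erase i) (a := j)
    have h2 := Finset.pred_card_le_card_erase (s := T) (a := i)
    omega
  rw [Finset.mem_erase, Finset.mem_erase] at hk
  exact five_tangents hH hQ hne hij (Ne.symm hk.2.1) (Ne.symm hk.1) ((hmemZ i _).1 (hf i))
    (huniq i hi) (hfij ▸ (hmemZ j _).1 (hf j)) (fun p' hp' => (huniq j hj p' hp').trans hfij.symm)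
    ((hmemZ k _).1 (hf k)) (huniq k hk.2.2)

end Pool.Agent.Y734.I.FINA
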