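import Pool.Agent.Y734.I.StmsF
import Pool.Agent.Y734.I.QAlg

/-!
# Project Y734/I, job FINA: quadratic forms
-/

set_option autoImplicit false

namespace Pool.Agent.Y734.I.FINA

open Pool.Agent.Y734.I MvPolynomial

/-- the bilinear form -/
noncomputable def bl (Q : Fin 3 → Fin 3 → ℚ) (x y : Fin 3 → ℂ) : ℂ :=
  ∑ j, ∑ k, (Q j k : ℂ) * (x j * y k)

lemma bl_add (Q : Fin 3 → Fin 3 → ℚ) (x y z : Fin 3 → ℂ) :
    bl Q x (y + z) = bl Q x y + bl Q x z := by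
  simp only [bl, Fin.sum_univ_three, Pi.add_apply]
  ring

lemma bl_smul (Q : Fin 3 → Fin 3 → ℚ) (x y : Fin 3 → ℂ) (c : ℂ) :
    bl Q x (c • y) = c * bl Q x y := by
  simp only [bl, Fin.sum_univ_three, Pi.smul_apply, smul_eq_mul]
  ring

lemma bl_comm {Q : Fin 3 → Fin 3 → ℚ} (hQ : ∀ j k, Q j k = Q k j) (x y : Fin 3 → ℂ) :
    bl Q x y = bl Q y x := by
  simp only [bl, Fin.sum_univ_three]
  rw [hQ 1 0, hQ 2 0, hQ 2 1]
  ring

/-- the matrix of a quadratic form -/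
lemma exists_mat {G : MvPolynomial (Fin 3) ℚ} (hG : G.IsHomogeneous 2) :
    ∃ Q : Fin 3 → Fin 3 → ℚ, (∀ j k, Q j k = Q k j) ∧ ∀ x : Fin 3 → ℂ, aeval x G = bl Q x x := by
  have h1 : ∀ j, (pderiv j G).IsHomogeneous 1 := fun j => hG.pderiv
  have h2 : ∀ j k, (pderiv k (pderiv j G)).IsHomogeneous 0 := fun j k => (h1 j).pderiv
  have h3 : ∀ j k, ∃ c : ℚ, pderiv k (pderiv j G) = C c := by
    intro j k
    have := h2 j k
    rw [← totalDegree_zero_iff_isHomogeneous, totalDegree_eq_zero_iff_eq_C] at this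
    exact ⟨_, this⟩
  choose c hc using h3
  have e1 : ∀ j, ∑ k, X k * C (c j k) = pderiv j G := by
    intro j
    have := (h1 j).sum_X_mul_pderiv
    rw [one_smul] at this
    rw [← this]
    exact Finset.sum_congr rfl fun k _ => by rw [hc]
  have e2 : ∑ j, X j * pderiv j G = 2 • G := hG.sum_X_mul_pderiv
  refine ⟨fun j k => (c j k + c k j) / 4, fun j k => by ring, fun x => ?_⟩
  have e3 := congrArg (aeval x) e2
  simp only [map_sum, map_mul, aeval_X, map_nsmul] at e3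
  have e4 : ∀ j, aeval x (pderiv j G) = ∑ k, x k * (c j k : ℂ) := by
    intro j
    rw [← e1 j]
    simp only [map_sum, map_mul, aeval_X, aeval_C]
    rfl
  simp only [e4, nsmul_eq_mul, Nat.cast_ofNat] at e3
  have e5 : aeval x G = (∑ j, x j * ∑ k, x k * (c j k : ℂ)) / 2 := by
    rw [e3]
    ring
  rw [e5]
  simp only [bl, Fin.sum_univ_three]
  push_cast
  ring

/-- the value of a linear form, complex numbers -/
lemma ev_c (l : Fin 3 → ℚ) (x : Fin 3 → ℂ) :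
    ev (N := 2) l x = (l 0 : ℂ) * x 0 + (l 1 : ℂ) * x 1 + (l 2 : ℂ) * x 2 := by
  unfold ev
  rw [Fin.sum_univ_three]
  rfl

lemma ev_add (l : Fin 3 → ℚ) (x y : Fin 3 → ℂ) :
    ev (N := 2) l (x + y) = ev (N := 2) l x + ev (N := 2) l y := by
  simp only [ev_c, Pi.add_apply]
  ring

lemma ev_smul (l : Fin 3 → ℚ) (c : ℂ) (x : Fin 3 → ℂ) :
    ev (N := 2) l (c • x) = c * ev (N := 2) l x := by
  simp only [ev_c, Pi.smul_apply, smul_eq_mul]
  ring

/-- three lines in general position have no common point -/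
lemma no_common {q : ℕ} {H : Fin q → Fin 3 → ℚ} (hH : GP3 H) {i j k : Fin q} (hij : i ≠ j)
    (hik : i ≠ k) (hjk : j ≠ k) {x : Fin 3 → ℂ} (h1 : ev (N := 2) (H i) x = 0)
    (h2 : ev (N := 2) (H j) x = 0) (h3 : ev (N := 2) (H k) x = 0) : x = 0 := by
  have hd : dt3 (H i) (crs (H j) (H k)) ≠ 0 := dt3_ne (hH i j k hij hik hjk)
  have hdC : ((dt3 (H i) (crs (H j) (H k)) : ℚ) : ℂ) ≠ 0 := by exact_mod_cast hd
  rw [ev_c] at h1 h2 h3
  simp only [dt3, crs, Matrix.cons_val_zero, Matrix.cons_val_one, Matrix.cons_val] at hdC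
  push_cast at hdC
  funext t
  refine (mul_eq_zero.1 ?_).resolve_left hdC
  fin_cases t
  · simp only [Fin.zero_eta, Fin.isValue]
    linear_combination (((H j 1 : ℚ) : ℂ) * (H k 2 : ℂ) - (H j 2 : ℂ) * (H k 1 : ℂ)) * h1 +
      ((H k 1 : ℂ) * (H i 2 : ℂ) - (H k 2 : ℂ) * (H i 1 : ℂ)) * h2 +
      ((H i 1 : ℂ) * (H j 2 : ℂ) - (H i 2 : ℂ) * (H j 1 : ℂ)) * h3
  · simp only [Fin.mk_one, Fin.isValue]
    linear_combination (((H j 2 : ℚ) : ℂ) * (H k 0 : ℂ) - (H j 0 : ℂ) * (H k 2 : ℂ)) * h1 +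
      ((H k 2 : ℂ) * (H i 0 : ℂ) - (H k 0 : ℂ) * (H i 2 : ℂ)) * h2 +
      ((H i 2 : ℂ) * (H j 0 : ℂ) - (H i 0 : ℂ) * (H j 2 : ℂ)) * h3
  · simp only [Fin.reduceFinMk, Fin.isValue]
    linear_combination (((H j 0 : ℚ) : ℂ) * (H k 1 : ℂ) - (H j 1 : ℂ) * (H k 0 : ℂ)) * h1 +
      ((H k 0 : ℂ) * (H i 1 : ℂ) - (H k 1 : ℂ) * (H i 0 : ℂ)) * h2 +
      ((H i 0 : ℂ) * (H j 1 : ℂ) - (H i 1 : ℂ) * (H j 0 : ℂ)) * h3

/-- vectors parallel to a nonzero vector -/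
lemma mul_of_cross {n0 n1 n2 : ℂ} (h : n0 ≠ 0 ∨ n1 ≠ 0 ∨ n2 ≠ 0) {z : Fin 3 → ℂ}
    (z1 : z 1 * n2 = z 2 * n1) (z2 : z 2 * n0 = z 0 * n2) (z3 : z 0 * n1 = z 1 * n0) :
    ∃ a : ℂ, z 0 = a * n0 ∧ z 1 = a * n1 ∧ z 2 = a * n2 := by
  rcases h with h | h | h
  · refine ⟨z 0 / n0, ?_, ?_, ?_⟩
    · field_simp
    · field_simp
      linear_combination -z3
    · field_simp
      linear_combination z2
  · refine ⟨z 1 / n1, ?_, ?_, ?_⟩
    · field_simp
      linear_combination z3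
    · field_simp
    · field_simp
      linear_combination -z1
  · refine ⟨z 2 / n2, ?_, ?_, ?_⟩
    · field_simp
      linear_combination -z2
    · field_simp
      linear_combination z1
    · field_simp

/-- a symmetric matrix with two independent kernel vectors is the square of a linear form -/
lemma rank_one {Q : Fin 3 → Fin 3 → ℚ} (hQ : ∀ j k, Q j k = Q k j) (hne : ∃ j k, Q j k ≠ 0)
    {v w : Fin 3 → ℂ} (hv : ∀ y, bl Q v y = 0) (hw : ∀ y, bl Q w y = 0) (hv0 : v ≠ 0)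
    (hvw : ∀ a : ℂ, w ≠ a • v) :
    ∃ h : Fin 3 → ℚ, h ≠ 0 ∧ ∀ x : Fin 3 → ℂ, bl Q x x = 0 ↔ ev (N := 2) h x = 0 := by
  -- rows are orthogonal to v and w
  have row : ∀ {z : Fin 3 → ℂ}, (∀ y, bl Q z y = 0) → ∀ k, (Q 0 k : ℂ) * z 0 +
      (Q 1 k : ℂ) * z 1 + (Q 2 k : ℂ) * z 2 = 0 := by
    intro z hz k
    have := hz (Pi.single k 1)
    simp only [bl, Fin.sum_univ_three] at this
    fin_cases k <;> simpa using this
  have hv' := row hv
  have hw' := row hw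
  -- the cross product of two rows vanishes
  have cr : ∀ k l : Fin 3, (Q 1 k : ℂ) * Q 2 l - Q 2 k * Q 1 l = 0 ∧
      (Q 2 k : ℂ) * Q 0 l - Q 0 k * Q 2 l = 0 ∧ (Q 0 k : ℂ) * Q 1 l - Q 1 k * Q 0 l = 0 := by
    intro k l
    set n0 : ℂ := (Q 1 k : ℂ) * Q 2 l - Q 2 k * Q 1 l with hn0
    set n1 : ℂ := (Q 2 k : ℂ) * Q 0 l - Q 0 k * Q 2 l with hn1
    set n2 : ℂ := (Q 0 k : ℂ) * Q 1 l - Q 1 k * Q 0 l with hn2
    have par : ∀ {z : Fin 3 → ℂ}, (∀ k, (Q 0 k : ℂ) * z 0 + (Q 1 k : ℂ) * z 1 +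
        (Q 2 k : ℂ) * z 2 = 0) → z 1 * n2 = z 2 * n1 ∧ z 2 * n0 = z 0 * n2 ∧
        z 0 * n1 = z 1 * n0 := by
      intro z hz
      have a := hz k
      have b := hz l
      refine ⟨?_, ?_, ?_⟩
      · rw [hn1, hn2]
        linear_combination (Q 0 k : ℂ) * b - (Q 0 l : ℂ) * a
      · rw [hn0, hn2]
        linear_combination (Q 1 k : ℂ) * b - (Q 1 l : ℂ) * a
      · rw [hn0, hn1]
        linear_combination (Q 2 k : ℂ) * b - (Q 2 l : ℂ) * a
    obtain ⟨v1, v2, v3⟩ := par hv'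
    obtain ⟨w1, w2, w3⟩ := par hw'
    by_contra hcon
    have hn : n0 ≠ 0 ∨ n1 ≠ 0 ∨ n2 ≠ 0 := by
      by_contra h
      push Not at h
      exact hcon ⟨h.1, h.2.1, h.2.2⟩
    obtain ⟨a, a0, a1, a2⟩ := mul_of_cross hn v1 v2 v3
    obtain ⟨b, b0, b1, b2⟩ := mul_of_cross hn w1 w2 w3
    have ha0 : a ≠ 0 := by
      rintro rfl
      rw [zero_mul] at a0 a1 a2
      apply hv0
      funext t
      fin_cases t
      · exact a0
      · exact a1
      · exact a2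
    apply hvw (b / a)
    funext t
    fin_cases t
    · simp only [Fin.zero_eta, Fin.isValue, Pi.smul_apply, smul_eq_mul]
      rw [a0, b0]
      field_simp
    · simp only [Fin.mk_one, Fin.isValue, Pi.smul_apply, smul_eq_mul]
      rw [a1, b1]
      field_simp
    · simp only [Fin.reduceFinMk, Fin.isValue, Pi.smul_apply, smul_eq_mul]
      rw [a2, b2]
      field_simp
  -- minors
  have mn : ∀ i j k l : Fin 3, Q i k * Q j l = Q j k * Q i l := by
    intro i j k l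
    obtain ⟨c1, c2, c3⟩ := cr k l
    have c1' : Q 1 k * Q 2 l - Q 2 k * Q 1 l = 0 := by exact_mod_cast c1
    have c2' : Q 2 k * Q 0 l - Q 0 k * Q 2 l = 0 := by exact_mod_cast c2
    have c3' : Q 0 k * Q 1 l - Q 1 k * Q 0 l = 0 := by exact_mod_cast c3
    fin_cases i <;> fin_cases j <;> simp only [Fin.zero_eta, Fin.mk_one, Fin.reduceFinMk,
      Fin.isValue] <;> linarith
  -- a nonzero diagonal entry
  obtain ⟨j, hj⟩ : ∃ j, Q j j ≠ 0 := by
    obtain ⟨j, k, hjk⟩ := hne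
    by_contra hcon
    push Not at hcon
    have := mn j k k j
    rw [hcon j, mul_zero, hQ k j] at this
    exact hjk (mul_self_eq_zero.1 this)
  refine ⟨Q j, fun h0 => hj (congrFun h0 j), fun x => ?_⟩
  have e : (Q j j : ℂ) * bl Q x x = (ev (N := 2) (Q j) x) ^ 2 := by
    have m : ∀ k l : Fin 3, (Q j j : ℂ) * (Q k l : ℂ) = (Q j k : ℂ) * (Q j l : ℂ) := by
      intro k l
      have := mn j k j l
      rw [hQ k j] at this
      exact_mod_cast this
    rw [ev_c]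
    simp only [bl, Fin.sum_univ_three]
    linear_combination (x 0 * x 0) * m 0 0 + (x 0 * x 1) * m 0 1 + (x 0 * x 2) * m 0 2 +
      (x 1 * x 0) * m 1 0 + (x 1 * x 1) * m 1 1 + (x 1 * x 2) * m 1 2 +
      (x 2 * x 0) * m 2 0 + (x 2 * x 1) * m 2 1 + (x 2 * x 2) * m 2 2
  have hjC : (Q j j : ℂ) ≠ 0 := by exact_mod_cast hj
  constructor
  · intro h0
    rw [h0, mul_zero] at e
    exact pow_eq_zero_iff (two_ne_zero) |>.1 e.symm
  · intro h0
    rw [h0] at e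
    have : (Q j j : ℂ) * bl Q x x = 0 := by rw [e]; ring
    exact (mul_eq_zero.1 this).resolve_left hjC

end Pool.Agent.Y734.I.FINA
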